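import Pool.Agent.MP_750bb3_lc.J.Gen

set_option autoImplicit false

open Pool.Agent.MP_750bb3_lc.J

/-- For comeager many sets `A`, every countable poset embeds, with joins preserved, strictly
between `A` and any `B` with `A <_e B`. -/
theorem Pool.Agent.Results.MP_750bb3_lc.GenericBase.result :
    ∀ᶠ a in residual (ℕ → Bool), ∀ A B : Set ℕ, A = {n | a n = true} → Red A B → ¬ Red B A →
      ∀ (P : Type) [PartialOrder P] [Countable P], ∃ f : P → Set ℕ,
        (∀ x y, x ≤ y ↔ Red (f x) (f y)) ∧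
        (∀ x y s, IsLUB {x, y} s → Red (f s) (join (f x) (f y))) ∧
        ∀ x, (Red A (f x) ∧ ¬ Red (f x) A) ∧ (Red (f x) B ∧ ¬ Red B (f x)) := by
  filter_upwards [gen_main] with a h A B e hAB hBA P _ _
  subst e
  by_cases hj : Red (jump B) (jump {n | a n = true})
  · obtain ⟨T, h1, h2⟩ := h B hAB hBA hj
    exact embed (lb := fun y => lc y.unpair) (by fun_prop) hAB h1 h2 P
  · obtain ⟨f, h1, h2, h3⟩ := main hAB hj P
    exact ⟨f, h1, h2, fun x => ⟨(h3 x).1, (h3 x).2.1⟩⟩
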