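import Pool.Agent.Mg.F750bb3.G8fa70e

set_option autoImplicit false

namespace Pool.Agent.Results.MP_750bb3_lc.Intervals

/-- A poset is isomorphic to an interval [a,b] of the enumeration degrees, with a not the
least degree and a above a given degree, exactly when it is a countable upper semilattice with a
least and a greatest element. -/
theorem result :
    ∀ red : Set ℕ → Set ℕ → Prop,
      (∀ A B : Set ℕ, red A B ↔
        ∃ W : ℕ × List ℕ → Prop,
          (∃ g : ℕ × List ℕ →. Unit, Partrec g ∧ ∀ p, W p ↔ (g p).Dom) ∧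
          ∀ x : ℕ, x ∈ A ↔ ∃ D : List ℕ, (∀ y ∈ D, y ∈ B) ∧ W (x, D)) →
      ∀ (L : Type) [PartialOrder L] (C₀ : Set ℕ),
        (Countable L ∧ (∃ z : L, ∀ x, z ≤ x) ∧ (∃ t : L, ∀ x, x ≤ t) ∧
          ∀ x y : L, ∃ s : L, IsLUB {x, y} s) ↔
        ∃ A B : Set ℕ, red C₀ A ∧ ¬ red A (∅ : Set ℕ) ∧ red A B ∧
          ∃ f : L → Set ℕ,
            (∀ x y : L, x ≤ y ↔ red (f x) (f y)) ∧
            (∀ x : L, red A (f x) ∧ red (f x) B) ∧
            (∀ C : Set ℕ, red A C → red C B → ∃ x : L, red C (f x) ∧ red (f x) C) := by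
  intro red hred L _ C₀
  have e : red = Pool.Agent.MP_750bb3_lc.Red := by
    funext A B
    exact propext (hred A B)
  subst e
  rw [← Pool.Agent.MP_750bb3_lc.main_iff L C₀]
  refine and_congr_right fun _ => and_congr_right fun _ => and_congr_right fun _ =>
    forall_congr' fun x => forall_congr' fun y => exists_congr fun s => ?_
  constructor
  · intro h u
    rw [isLUB_le_iff h]
    simp [upperBounds]
  · intro h
    refine ⟨?_, fun u hu => (h u).2 ⟨hu (by simp), hu (by simp)⟩⟩
    rintro u (rfl | rfl)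
    · exact ((h s).1 le_rfl).1
    · exact ((h s).1 le_rfl).2

end Pool.Agent.Results.MP_750bb3_lc.Intervals
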