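import Pool.Agent.MP_750bb3_lc.J.Main

set_option autoImplicit false

open Pool.Agent.MP_750bb3_lc.J

/-- If `A ≤_e B` and the jump of `B` is not below the jump of `A`, then every countable poset
embeds strictly between `A` and `B`, with joins preserved and all images of the same jump
as `B`. -/
theorem Pool.Agent.Results.MP_750bb3_lc.JumpGap.result (A B : Set ℕ) (hAB : Red A B)
    (hj : ¬ Red (jump B) (jump A)) (P : Type) [PartialOrder P] [Countable P] :
    ∃ f : P → Set ℕ, (∀ x y, x ≤ y ↔ Red (f x) (f y)) ∧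
      (∀ x y s, IsLUB {x, y} s → Red (f s) (join (f x) (f y))) ∧
      ∀ x, (Red A (f x) ∧ ¬ Red (f x) A) ∧ (Red (f x) B ∧ ¬ Red B (f x)) ∧
        (Red (jump B) (jump (f x)) ∧ Red (jump (f x)) (jump B)) := by
  obtain ⟨f, h1, h2, h3⟩ := main hAB hj P
  exact ⟨f, h1, h2, fun x => ⟨(h3 x).1, (h3 x).2.1, (h3 x).2.2, (h3 x).2.1.1.jump_mono⟩⟩
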