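import Pool.Agent.Mg.F750bb3.G03fde7

set_option autoImplicit false

namespace Pool.Agent.Results.MP_750bb3_lc.StrongInterval

/-- Every nonempty finite lattice has a strong interval embedding in the enumeration degrees:
it is isomorphic to an interval [a,b] with a not the least degree, and every degree below b is
below a or lies in the interval. -/
theorem result :
    ∀ red : Set ℕ → Set ℕ → Prop,
      (∀ A B : Set ℕ, red A B ↔
        ∃ W : ℕ × List ℕ → Prop,
          (∃ g : ℕ × List ℕ →. Unit, Partrec g ∧ ∀ p, W p ↔ (g p).Dom) ∧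
          ∀ x : ℕ, x ∈ A ↔ ∃ D : List ℕ, (∀ y ∈ D, y ∈ B) ∧ W (x, D)) →
      ∀ (L : Type) [Lattice L] [Fintype L] [Nonempty L],
        ∃ A B : Set ℕ, ¬ red A (∅ : Set ℕ) ∧
          ∃ f : L → Set ℕ,
            (∀ x y : L, x ≤ y ↔ red (f x) (f y)) ∧
            (∀ x : L, red A (f x) ∧ red (f x) B) ∧
            (∀ C : Set ℕ, red A C → red C B → ∃ x : L, red C (f x) ∧ red (f x) C) ∧
            (∀ C : Set ℕ, red C B → red C A ∨ ∃ x : L, red C (f x) ∧ red (f x) C) := by
  intro red hred L _ _ _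
  have e : red = MP750S.Red := by
    funext A B
    refine propext ((hred A B).trans (exists_congr fun W => and_congr
      Pool.Agent.MP_750bb3_lc.re_iff ?_))
    exact ⟨fun h => Set.ext h, fun h x => Set.ext_iff.1 h x⟩
  subst e
  let _ : BoundedOrder L := Fintype.toBoundedOrder L
  obtain ⟨f, h1, h2, h3⟩ := MP750S.strong L
  exact ⟨f ⊥, f ⊤, h1, f, h2, fun x => ⟨(h2 _ _).1 bot_le, (h2 _ _).1 le_top⟩,
    fun C hA hB => (h3 C hB).elim (fun h => ⟨⊥, h, hA⟩) id, h3⟩

end Pool.Agent.Results.MP_750bb3_lc.StrongInterval
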